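import Pool.Agent.R169.MD.Fin

/-!
# Ordering of the limiting distribution of missing differences

For a uniformly random subset `S` of `{0,…,n-1}` let `missing n S = 2n - 1 - |S - S|` be the number
of missing differences, and `ℓ k` the limit of the probability that it equals `k`.  Then
`ℓ 4 > ℓ 2 > ℓ 6 > ℓ 0 > ℓ 8 > ℓ 10 > ℓ 12 > ⋯`.
-/

namespace Pool.Agent.Results.MP_7c207a_co.Chain
open Finset Filter Topology

/-- the difference set `S - S` -/
def diffSet (S : Finset ℕ) : Finset ℤ := (S ×ˢ S).image (fun x => (x.1 : ℤ) - (x.2 : ℤ))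

/-- the number of missing differences of `S ⊆ {0,…,n-1}` -/
def missing (n : ℕ) (S : Finset ℕ) : ℤ := 2 * (n : ℤ) - 1 - ((diffSet S).card : ℤ)

/-- the probability that a uniformly random subset of `{0,…,n-1}` has exactly `k` missing
differences -/
noncomputable def prob (n k : ℕ) : ℝ :=
  (((range n).powerset.filter (fun S => missing n S = (k : ℤ))).card : ℝ) / 2 ^ n

theorem card_le {n : ℕ} (hn : 1 ≤ n) {S : Finset ℕ} (hS : S ⊆ range n) :
    (diffSet S).card ≤ 2 * n - 1 := by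
  have h : diffSet S ⊆ Ioo (-(n : ℤ)) n := by
    intro d hd
    unfold diffSet at hd
    rw [mem_image] at hd
    obtain ⟨x, hx, rfl⟩ := hd
    rw [mem_product] at hx
    have h1 := mem_range.1 (hS hx.1)
    have h2 := mem_range.1 (hS hx.2)
    rw [mem_Ioo]
    constructor <;> omega
  have h2 := card_le_card h
  rw [Int.card_Ioo] at h2
  omega

theorem prob_eq {n : ℕ} (hn : 1 ≤ n) (k : ℕ) : prob n k = Pool.Agent.R169.MD.P n k := by
  unfold prob Pool.Agent.R169.MD.P Pool.Agent.R169.MD.cP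
  congr 2
  congr 1
  apply filter_congr
  intro S hS
  rw [mem_powerset] at hS
  have h := card_le hn hS
  have e : (diffSet S).card = (Pool.Agent.R169.MD.diffs S).card := rfl
  unfold missing
  rw [e] at h ⊢
  constructor
  · intro h1; omega
  · intro h1; omega

/-- The limits `ℓ k` exist and satisfy
`ℓ 4 > ℓ 2 > ℓ 6 > ℓ 0 > ℓ 8 > ℓ 10 > ℓ 12 > ⋯`. -/
theorem result : ∃ ℓ : ℕ → ℝ, (∀ k, Tendsto (fun n => prob n k) atTop (𝓝 (ℓ k))) ∧
    ℓ 4 > ℓ 2 ∧ ℓ 2 > ℓ 6 ∧ ℓ 6 > ℓ 0 ∧ ℓ 0 > ℓ 8 ∧ ∀ k, 4 ≤ k → ℓ (2 * k + 2) < ℓ (2 * k) := by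
  refine ⟨fun k => if k % 2 = 0 then Pool.Agent.R169.MD.Lim.pl (k / 2) else 0, ?_, ?_, ?_, ?_, ?_, ?_⟩
  · intro k
    have hev : (fun n => Pool.Agent.R169.MD.P n k) =ᶠ[atTop] (fun n => prob n k) := by
      filter_upwards [eventually_ge_atTop 1] with n hn
      exact (prob_eq hn k).symm
    apply Tendsto.congr' hev
    rcases Nat.even_or_odd' k with ⟨m, rfl | rfl⟩
    · have e1 : 2 * m % 2 = 0 := by omega
      have e2 : 2 * m / 2 = m := by omega
      simp only [e1, e2, if_true]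
      exact Pool.Agent.R169.MD.Fin.P_even m
    · have e1 : ¬ (2 * m + 1) % 2 = 0 := by omega
      simp only [e1, if_false]
      exact Pool.Agent.R169.MD.Fin.P_odd m
  · simpa using Pool.Agent.R169.MD.Fin.a1
  · simpa using Pool.Agent.R169.MD.Fin.a2
  · simpa using Pool.Agent.R169.MD.Fin.a3
  · simpa using Pool.Agent.R169.MD.Fin.a4
  · intro k hk
    have e1 : (2 * k + 2) % 2 = 0 := by omega
    have e2 : (2 * k + 2) / 2 = k + 1 := by omega
    have e3 : 2 * k % 2 = 0 := by omega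
    have e4 : 2 * k / 2 = k := by omega
    simp only [e1, e2, e3, e4, if_true]
    exact Pool.Agent.R169.MD.Fin.a5 k hk

end Pool.Agent.Results.MP_7c207a_co.Chain
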